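import Pool.Agent.Lib.MP_abd978_an.UN.H52.H0c

/-!
# Project UNW, module CHAINF
-/

set_option autoImplicit false

open MeasureTheory Metric Set Filter Topology ContDiff
open scoped Gradient RealInnerProductSpace NNReal ENNReal Manifold

namespace Pool.Agent.Lib.MP_abd978_an.UN.H52

/-- cut-off functions -/
theorem exists_cut {n : ℕ} (K G : Set (E n)) (hK : IsCompact K) (hG : IsOpen G) (hKG : K ⊆ G) :
    ∃ η : E n → ℝ, Test G η ∧ (∀ x ∈ K, η =ᶠ[𝓝 x] fun _ => 1) ∧ ∀ x, η x ∈ Icc (0 : ℝ) 1 := by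
  obtain ⟨W, hW, hKW, hWG, hWc⟩ := exists_open_between_and_isCompact_closure hK hG hKG
  obtain ⟨f, hf0, hf1, hf⟩ := exists_contMDiffMap_zero_one_nhds_of_isClosed (n := ⊤) (M := E n)
    𝓘(ℝ, E n) (s := Wᶜ) (t := K) hW.isClosed_compl hK.isClosed
    (Set.disjoint_compl_left_iff_subset.2 hKW)
  have hfc : ContDiff ℝ ∞ f := f.contMDiff.contDiff
  have hsupp : Function.support f ⊆ W := by
    intro x hx
    by_contra hc
    exact hx (eventually_nhdsSet_iff_forall.1 hf0 x hc).self_of_nhds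
  refine ⟨f, ⟨hfc, ?_, ?_⟩, fun x hx => eventually_nhdsSet_iff_forall.1 hf1 x hx, hf⟩
  · exact HasCompactSupport.of_support_subset_isCompact hWc (hsupp.trans subset_closure)
  · exact (closure_mono hsupp).trans hWG

/-- the Sobolev space is closed -/
theorem isSob_of_tendsto {n : ℕ} {μ : Measure (E n)} {p : ℝ} {D : Set (E n)} (hp : 1 < p)
    (hD : IsOpen D) {u : E n → ℝ} {v : E n → E n} {us : ℕ → E n → ℝ} {vs : ℕ → E n → E n}
    (hu : MemLp u (ENNReal.ofReal p) (μ.restrict D)) (hv : MemLp v (ENNReal.ofReal p) (μ.restrict D))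
    (hs : ∀ i, IsSob μ p D (us i) (vs i))
    (h1 : Tendsto (fun i => eLpNorm (fun x => us i x - u x) (ENNReal.ofReal p) (μ.restrict D))
      atTop (𝓝 0))
    (h2 : Tendsto (fun i => eLpNorm (fun x => vs i x - v x) (ENNReal.ofReal p) (μ.restrict D))
      atTop (𝓝 0)) : IsSob μ p D u v := by
  have hp1' : 1 ≤ ENNReal.ofReal p := by simpa using hp.le
  have hex : ∀ i : ℕ, ∃ φ : E n → ℝ, ContDiffOn ℝ ∞ φ D ∧
      eLpNorm (fun x => φ x - us i x) (ENNReal.ofReal p) (μ.restrict D) ≤ ((i : ℝ≥0∞) + 1)⁻¹ ∧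
      eLpNorm (fun x => ∇ φ x - vs i x) (ENNReal.ofReal p) (μ.restrict D) ≤
        ((i : ℝ≥0∞) + 1)⁻¹ := by
    intro i
    obtain ⟨-, -, φ, hφ, h3, h4⟩ := hs i
    have hpos : (0 : ℝ≥0∞) < ((i : ℝ≥0∞) + 1)⁻¹ := by
      rw [ENNReal.inv_pos]; finiteness
    obtain ⟨j, h5, h6⟩ := ((h3.eventually_lt_const hpos).and (h4.eventually_lt_const hpos)).exists
    exact ⟨φ j, hφ j, h5.le, h6.le⟩
  choose φ hφ h3 h4 using hex
  have hδ : Tendsto (fun i : ℕ => ((i : ℝ≥0∞) + 1)⁻¹) atTop (𝓝 0) := by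
    have := (tendsto_add_atTop_iff_nat 1).2 ENNReal.tendsto_inv_nat_nhds_zero
    simpa using this
  refine ⟨hu, hv, φ, hφ, ?_, ?_⟩
  · refine tendsto_of_tendsto_of_tendsto_of_le_of_le tendsto_const_nhds
      (by simpa using hδ.add h1) (fun _ => zero_le) fun i => ?_
    have e : (fun x => φ i x - u x) = (fun x => φ i x - us i x) + fun x => us i x - u x := by
      ext x; simp
    rw [e]
    refine (eLpNorm_add_le (((hφ i).continuousOn.aestronglyMeasurable hD.measurableSet).sub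
      (hs i).1.1) ((hs i).1.1.sub hu.1) hp1').trans ?_
    exact add_le_add (h3 i) le_rfl
  · refine tendsto_of_tendsto_of_tendsto_of_le_of_le tendsto_const_nhds
      (by simpa using hδ.add h2) (fun _ => zero_le) fun i => ?_
    have e : (fun x => ∇ (φ i) x - v x) = (fun x => ∇ (φ i) x - vs i x) + fun x => vs i x - v x := by
      ext1 x; simp
    rw [e]
    refine (eLpNorm_add_le ((measurable_grad _).aestronglyMeasurable.sub
      (hs i).2.1.1) ((hs i).2.1.1.sub hv.1) hp1').trans ?_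
    exact add_le_add (h4 i) le_rfl

theorem LocLip.continuousAt {n : ℕ} {F : Type} [NormedAddCommGroup F] {Ω : Set (E n)}
    {f : E n → F} (h : LocLip Ω f) {x : E n} (hx : x ∈ Ω) : ContinuousAt f x := by
  obtain ⟨K, U, hU, hK⟩ := h x hx
  exact hK.continuousOn.continuousAt hU

theorem norm_Dt {n : ℕ} (f : E n → E n) (x : E n) : ‖Dt f x‖ = ‖fderiv ℝ f x‖ := by
  rw [Dt]; exact LinearIsometryEquiv.norm_map _ _

theorem measurable_Dt {n : ℕ} (f : E n → E n) : Measurable (Dt f) := by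
  have h : Measurable (fderiv ℝ f) := measurable_fderiv ℝ f
  exact (ContinuousLinearMap.adjoint (𝕜 := ℝ) (E := E n) (F := E n)).continuous.measurable.comp h

theorem measurable_Dt_apply {n : ℕ} (f : E n → E n) {w : E n → E n} (hw : Measurable w) :
    Measurable fun x => Dt f x (w x) := by
  have h1 : Continuous fun q : (E n →L[ℝ] E n) × E n => q.1 q.2 :=
    isBoundedBilinearMap_apply.continuous
  exact h1.measurable.comp ((measurable_Dt f).prodMk hw)

theorem grad_comp_eq {n : ℕ} (f : E n → E n) (ψ : E n → ℝ) (x : E n)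
    (hf : DifferentiableAt ℝ f x) (hψ : DifferentiableAt ℝ ψ (f x)) :
    ∇ (ψ ∘ f) x = Dt f x (∇ ψ (f x)) := by
  refine ext_inner_right ℝ fun y => ?_
  rw [Dt, ContinuousLinearMap.adjoint_inner_left, gradient, gradient,
    InnerProductSpace.toDual_symm_apply, InnerProductSpace.toDual_symm_apply,
    fderiv_comp x hψ hf]
  rfl

/-- the weighted estimate -/
theorem lintegral_Dt_le {n : ℕ} {p : ℝ} {f : E n → E n} {K : Set (E n)} {C' : ℝ≥0∞} (hp : 0 < p)
    (hed : ∀ g : E n → ℝ≥0∞, Measurable g →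
      ∫⁻ x in K, g (f x) * ENNReal.ofReal (‖fderiv ℝ f x‖ ^ p) ≤ C' * ∫⁻ z, g z)
    {w : E n → E n} (hw : Measurable w) :
    ∫⁻ x in K, ‖Dt f x (w (f x))‖ₑ ^ p ≤ C' * ∫⁻ z, ‖w z‖ₑ ^ p := by
  refine (lintegral_mono fun x => ?_).trans (hed (fun z => ‖w z‖ₑ ^ p) (hw.enorm.pow_const p))
  show ‖Dt f x (w (f x))‖ₑ ^ p ≤ ‖w (f x)‖ₑ ^ p * ENNReal.ofReal (‖fderiv ℝ f x‖ ^ p)
  have h1 : ‖Dt f x (w (f x))‖ₑ ≤ ‖w (f x)‖ₑ * ENNReal.ofReal ‖fderiv ℝ f x‖ := by
    rw [← norm_Dt, ← ofReal_norm, ← ofReal_norm, ← ENNReal.ofReal_mul (norm_nonneg _), mul_comm]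
    exact ENNReal.ofReal_le_ofReal (ContinuousLinearMap.le_opNorm _ _)
  calc ‖Dt f x (w (f x))‖ₑ ^ p ≤ (‖w (f x)‖ₑ * ENNReal.ofReal ‖fderiv ℝ f x‖) ^ p :=
        ENNReal.rpow_le_rpow h1 hp.le
    _ = _ := by
        rw [ENNReal.mul_rpow_of_nonneg _ _ hp.le,
          ENNReal.ofReal_rpow_of_nonneg (norm_nonneg _) hp.le]

/-- preimages of null sets -/
theorem ae_null {n : ℕ} {p : ℝ} {f : E n → E n} {K : Set (E n)} {C' : ℝ≥0∞}
    (hf : Measurable f) (hK : MeasurableSet K)
    (hed : ∀ g : E n → ℝ≥0∞, Measurable g →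
      ∫⁻ x in K, g (f x) * ENNReal.ofReal (‖fderiv ℝ f x‖ ^ p) ≤ C' * ∫⁻ z, g z)
    {N : Set (E n)} (hN : MeasurableSet N) (hN0 : volume N = 0) :
    ∀ᵐ x : E n, x ∈ K → f x ∈ N → fderiv ℝ f x = 0 := by
  have hm : Measurable fun x => N.indicator (fun _ => (1 : ℝ≥0∞)) (f x) *
      ENNReal.ofReal (‖fderiv ℝ f x‖ ^ p) := by
    refine ((measurable_const.indicator hN).comp hf).mul (ENNReal.measurable_ofReal.comp ?_)
    exact (measurable_fderiv ℝ f).norm.pow_const p
  have h1 := hed (N.indicator fun _ => 1) (measurable_const.indicator hN)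
  rw [lintegral_indicator hN, setLIntegral_const, hN0, mul_zero, mul_zero, nonpos_iff_eq_zero,
    lintegral_eq_zero_iff hm] at h1
  have h2 := (ae_restrict_iff' hK).1 h1
  filter_upwards [h2] with x hx hxK hxN
  have h3 := hx hxK
  simp only [Pi.zero_apply, indicator_of_mem hxN, one_mul, ENNReal.ofReal_eq_zero] at h3
  by_contra hne
  exact absurd h3 (not_le.2 (Real.rpow_pos_of_pos (norm_pos_iff.2 hne) _))

theorem tendsto_zero_of_le {a b : ℕ → ℝ≥0∞} {c : ℝ≥0∞} (hc : c ≠ ⊤)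
    (h : Tendsto a atTop (𝓝 0)) (hb : ∀ i, b i ≤ c * a i) : Tendsto b atTop (𝓝 0) := by
  have h1 : Tendsto (fun i => c * a i) atTop (𝓝 (c * 0)) :=
    ENNReal.Tendsto.const_mul h (Or.inr hc)
  rw [mul_zero] at h1
  exact tendsto_of_tendsto_of_tendsto_of_le_of_le tendsto_const_nhds h1 (fun _ => zero_le) hb

/-- **CHAINF** -/
theorem chainf (hM : MultStatement) (hL : LsoblStatement) : ChainfStatement := by
  intro n p a b Ω f m c C V u U hn hp hreg hV hu hs D hD hDc hDΩ
  have hn' : (1 : ℝ) ≤ n := by exact_mod_cast hn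
  have hp1 : 1 < p := by linarith
  have hp0 : 0 < p := by linarith
  have hpe : ENNReal.ofReal p ≠ 0 := by simpa using hp0
  have hpt : ENNReal.ofReal p ≠ ⊤ := ENNReal.ofReal_ne_top
  have hpr : (ENNReal.ofReal p).toReal = p := ENNReal.toReal_ofReal hp0.le
  set K : Set (E n) := closure D with hK
  have hKm : MeasurableSet K := isClosed_closure.measurableSet
  have hKΩ : K ⊆ Ω := fun x hx => (hDΩ hx).1
  have hfc : ContinuousOn f K := fun x hx =>
    (LocLip.continuousAt hreg.loclip (hKΩ hx)).continuousWithinAt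
  have hfK : IsCompact (f '' K) := hDc.image_of_continuousOn hfc
  have hfKV : f '' K ⊆ V := by
    rintro _ ⟨x, hx, rfl⟩
    exact (hDΩ hx).2
  obtain ⟨G, hG, hKG, hGV, hGc⟩ := exists_open_between_and_isCompact_closure hfK hV hfKV
  obtain ⟨η, hη, hη1, -⟩ := exists_cut (f '' K) G hfK hG hKG
  have hsG : IsSob volume p G u U := hs G hG hGc hGV
  obtain ⟨hu2, hW2, ψ, hψ, hψu, hψW⟩ := hM n p G u U η hp1 hG hsG hη
  obtain ⟨R, hR⟩ := hGc.isBounded.subset_ball 0
  have hGR : G ⊆ ball 0 (max R 1) :=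
    (subset_closure.trans hR).trans (ball_subset_ball (le_max_left _ _))
  obtain ⟨u', hu'c, hu'ae, hTU⟩ := h0_unif hn hp (lt_of_lt_of_le one_pos (le_max_right R 1)) hGR
    hu2 hW2 hψ hψu hψW
  -- `u' = η u`
  have hηu : Continuous fun x => η x * u x := by
    rw [continuous_iff_continuousAt]
    intro x
    by_cases hx : x ∈ V
    · exact hη.1.continuous.continuousAt.mul (hu.continuousAt (hV.mem_nhds hx))
    · have hx' : x ∉ tsupport η := fun h => hx (hGV (subset_closure (hη.2.2 h)))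
      have h1 : (fun y => η y * u y) =ᶠ[𝓝 x] fun _ => 0 := by
        filter_upwards [notMem_tsupport_iff_eventuallyEq.1 hx'] with y hy
        rw [hy]
        simp
      exact continuousAt_const.congr h1.symm
  have hu'eq : u' = fun x => η x * u x := (hu'c.ae_eq_iff_eq volume hηu).1 hu'ae
  have hu'K : ∀ x ∈ K, u' (f x) = u (f x) := by
    intro x hx
    rw [hu'eq]
    show η (f x) * u (f x) = u (f x)
    rw [(hη1 (f x) (mem_image_of_mem f hx)).self_of_nhds, one_mul]
  set W : E n → E n := fun x => u x • ∇ η x + η x • U x with hW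
  have hWK : ∀ x ∈ K, W (f x) = U (f x) := by
    intro x hx
    have h1 := hη1 (f x) (mem_image_of_mem f hx)
    have h2 : ∇ η (f x) = 0 := by
      rw [gradient, h1.fderiv_eq, fderiv_fun_const]
      simp
    rw [hW]
    show u (f x) • ∇ η (f x) + η (f x) • U (f x) = U (f x)
    rw [h2, h1.self_of_nhds, smul_zero, zero_add, one_smul]
  set W' : E n → E n := hW2.1.mk W with hW'
  have hW'm : Measurable W' := hW2.1.stronglyMeasurable_mk.measurable
  have hWW' : W =ᵐ[volume] W' := hW2.1.ae_eq_mk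
  obtain ⟨C', hC'⟩ := hreg.ed K hDc hKΩ
  set N : Set (E n) := toMeasurable volume {z | W z ≠ W' z} with hN
  have hN0 : volume N = 0 := by
    rw [hN, measure_toMeasurable]
    exact hWW'
  have hnull := ae_null hreg.meas hKm hC' (measurableSet_toMeasurable _ _ : MeasurableSet N) hN0
  have hDtae : ∀ᵐ x : E n, x ∈ K → Dt f x (U (f x)) = Dt f x (W' (f x)) := by
    filter_upwards [hnull] with x hx hxK
    rw [← hWK x hxK]
    by_cases h : f x ∈ N
    · have h1 := hx hxK h
      simp [Dt, h1]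
    · have h1 : W (f x) = W' (f x) := by
        by_contra hc
        exact h (subset_toMeasurable _ _ hc)
      rw [h1]
  have hDK : D ⊆ K := subset_closure
  have hDvol : volume D < ⊤ := (measure_mono hDK).trans_lt hDc.measure_lt_top
  have hle : ∀ w : E n → E n, Measurable w →
      ∫⁻ x in D, ‖Dt f x (w (f x))‖ₑ ^ p ≤ C' * ∫⁻ z, ‖w z‖ₑ ^ p := fun w hw =>
    (lintegral_mono_set hDK).trans (lintegral_Dt_le hp0 hC' hw)
  -- the approximating functions
  refine isSob_of_tendsto (us := fun i => ψ i ∘ f) (vs := fun i x => ∇ (ψ i ∘ f) x) hp1 hD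
    ?_ ?_ ?_ ?_ ?_
  · have hc : ContinuousOn (u ∘ f) K := hu.comp hfc (fun x hx => (hDΩ hx).2)
    obtain ⟨B, hB⟩ := hDc.exists_bound_of_continuousOn hc
    have : IsFiniteMeasure ((volume : Measure (E n)).restrict D) :=
      ⟨by rw [Measure.restrict_apply_univ]; exact hDvol⟩
    refine MemLp.of_bound ((hc.mono hDK).aestronglyMeasurable hD.measurableSet) B ?_
    exact (ae_restrict_iff' hD.measurableSet).2 (Eventually.of_forall fun x hx => hB x (hDK hx))
  · refine ⟨?_, ?_⟩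
    · refine (measurable_Dt_apply f (hW'm.comp hreg.meas)).aestronglyMeasurable.congr ?_
      refine (ae_restrict_iff' hD.measurableSet).2 ?_
      filter_upwards [hDtae] with x hx hxD
      exact (hx (hDK hxD)).symm
    · rw [eLpNorm_lt_top_iff_lintegral_rpow_enorm_lt_top hpe hpt, hpr]
      have h1 : ∫⁻ x in D, ‖Dt f x (U (f x))‖ₑ ^ p = ∫⁻ x in D, ‖Dt f x (W' (f x))‖ₑ ^ p := by
        refine lintegral_congr_ae ((ae_restrict_iff' hD.measurableSet).2 ?_)
        filter_upwards [hDtae] with x hx hxD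
        rw [hx (hDK hxD)]
      rw [h1]
      refine (hle W' hW'm).trans_lt (ENNReal.mul_lt_top ENNReal.coe_lt_top ?_)
      have h2 : MemLp W' (ENNReal.ofReal p) volume := hW2.ae_eq hWW'
      have h3 := h2.2
      rwa [eLpNorm_lt_top_iff_lintegral_rpow_enorm_lt_top hpe hpt, hpr] at h3
  · intro i
    obtain ⟨L, hLip⟩ := ContDiff.lipschitzWith_of_hasCompactSupport (hψ i).2.1 (hψ i).1
      (by simp)
    have hll : LocLip Ω (ψ i ∘ f) := by
      intro x hx
      obtain ⟨K', U', hU', hK'⟩ := hreg.loclip x hx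
      exact ⟨L * K', U', hU', hLip.comp_lipschitzOnWith hK'⟩
    exact hL n p Ω (ψ i ∘ f) hp1 hreg.isOpen hll D hD hDc hKΩ
  · rw [ENNReal.tendsto_nhds_zero]
    intro ε hε
    set M : ℝ≥0∞ := (volume.restrict D) univ ^ (ENNReal.ofReal p).toReal⁻¹ with hMdef
    have hMt : M ≠ ⊤ := by
      rw [hMdef, Measure.restrict_apply_univ]
      exact ENNReal.rpow_ne_top_of_nonneg (by positivity) hDvol.ne
    obtain ⟨δ, hδ, hδε⟩ : ∃ δ : ℝ, 0 < δ ∧ M * ENNReal.ofReal δ ≤ ε := by
      have h1 : Tendsto (fun δ : ℝ => M * ENNReal.ofReal δ) (𝓝[>] 0) (𝓝 (M * ENNReal.ofReal 0)) :=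
        ENNReal.Tendsto.const_mul ((ENNReal.continuous_ofReal.tendsto 0).mono_left
          nhdsWithin_le_nhds) (Or.inr hMt)
      rw [ENNReal.ofReal_zero, mul_zero] at h1
      obtain ⟨δ, h2, h3⟩ := ((h1.eventually_le_const hε).and self_mem_nhdsWithin).exists
      exact ⟨δ, h3, h2⟩
    have h2 := Metric.tendstoUniformlyOn_iff.1 hTU δ hδ
    filter_upwards [h2] with i hi
    refine (eLpNorm_le_of_ae_bound (C := δ) ?_).trans hδε
    refine (ae_restrict_iff' hD.measurableSet).2 (Eventually.of_forall fun x hx => ?_)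
    have h3 := hi (f x) (mem_univ _)
    rw [dist_comm, dist_eq_norm, hu'K x (hDK hx)] at h3
    exact h3.le
  · have h1 : ∀ i, eLpNorm (fun x => ∇ (ψ i ∘ f) x - Dt f x (U (f x))) (ENNReal.ofReal p)
        (volume.restrict D) ≤ (C' : ℝ≥0∞) ^ (1 / p) *
          eLpNorm (fun x => ∇ (ψ i) x - W x) (ENNReal.ofReal p) volume := by
      intro i
      have h2 : eLpNorm (fun x => ∇ (ψ i) x - W x) (ENNReal.ofReal p) volume =
          eLpNorm (fun x => ∇ (ψ i) x - W' x) (ENNReal.ofReal p) volume := by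
        refine eLpNorm_congr_ae ?_
        filter_upwards [hWW'] with x hx
        rw [hx]
      have h3 : eLpNorm (fun x => ∇ (ψ i ∘ f) x - Dt f x (U (f x))) (ENNReal.ofReal p)
          (volume.restrict D) = eLpNorm (fun x => Dt f x ((fun z => ∇ (ψ i) z - W' z) (f x)))
            (ENNReal.ofReal p) (volume.restrict D) := by
        refine eLpNorm_congr_ae ((ae_restrict_iff' hD.measurableSet).2 ?_)
        filter_upwards [hDtae, hreg.diff] with x hx hx' hxD
        rw [hx (hDK hxD), grad_comp_eq f (ψ i) x (hx' (hKΩ (hDK hxD)))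
          ((hψ i).1.differentiable (by simp) _)]
        simp
      rw [h2, h3, eLpNorm_eq_lintegral_rpow_enorm_toReal hpe hpt,
        eLpNorm_eq_lintegral_rpow_enorm_toReal hpe hpt, hpr,
        ← ENNReal.mul_rpow_of_nonneg _ _ (by positivity)]
      have h4 : Measurable fun z => ∇ (ψ i) z - W' z := (measurable_grad (ψ i)).sub hW'm
      have h5 := hle (fun z => ∇ (ψ i) z - W' z) h4
      exact ENNReal.rpow_le_rpow h5 (by positivity)
    have hCt : (C' : ℝ≥0∞) ^ (1 / p) ≠ ⊤ :=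
      ENNReal.rpow_ne_top_of_nonneg (by positivity) ENNReal.coe_ne_top
    exact tendsto_zero_of_le hCt hψW h1

end Pool.Agent.Lib.MP_abd978_an.UN.H52
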