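import Pool.Agent.Lib.MP_abd978_an.UN.Interfaces

/-!
# Project UNW, module ED: transport of integrals
-/

set_option autoImplicit false

open MeasureTheory Metric Set Filter Topology ContDiff
open scoped Gradient RealInnerProductSpace NNReal ENNReal

namespace Pool.Agent.Lib.MP_abd978_an.UN.H52

/-- a lower bound for the determinant -/
theorem pow_le_abs_det {n : ℕ} (T : E n →L[ℝ] E n) (m : ℝ) (hm : 0 < m)
    (h : ∀ η : E n, m * ‖η‖ ≤ ‖T η‖) : m ^ n ≤ |T.det| := by
  have hinj : Function.Injective T := by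
    intro x y hxy
    have h1 := h (x - y)
    rw [map_sub, hxy, sub_self, norm_zero] at h1
    have h2 : ‖x - y‖ ≤ 0 := by
      by_contra hc
      push Not at hc
      have := mul_pos hm hc
      linarith
    exact sub_eq_zero.1 (norm_eq_zero.1 (le_antisymm h2 (norm_nonneg _)))
  have hsurj : Function.Surjective T :=
    LinearMap.surjective_of_injective (f := (T : E n →ₗ[ℝ] E n)) hinj
  have hsub : ball (0 : E n) m ⊆ T '' ball (0 : E n) 1 := by
    intro y hy
    obtain ⟨x, rfl⟩ := hsurj y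
    refine ⟨x, ?_, rfl⟩
    rw [mem_ball_zero_iff] at hy ⊢
    have h1 := h x
    by_contra hc
    push Not at hc
    nlinarith
  have hvol := measure_mono (μ := (volume : Measure (E n))) hsub
  rw [Measure.addHaar_image_continuousLinearMap, Measure.addHaar_ball_of_pos _ _ hm,
    finrank_euclideanSpace_fin] at hvol
  have hb : (volume : Measure (E n)) (ball (0 : E n) 1) ≠ 0 :=
    (measure_ball_pos _ _ one_pos).ne'
  have hb' : (volume : Measure (E n)) (ball (0 : E n) 1) ≠ ⊤ := measure_ball_lt_top.ne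
  have h3 := (ENNReal.mul_le_mul_iff_left hb hb').1 hvol
  exact (ENNReal.ofReal_le_ofReal_iff (abs_nonneg _)).1 h3

theorem adjoint_det {n : ℕ} (T : E n →L[ℝ] E n) :
    (ContinuousLinearMap.adjoint T).det = T.det := by
  have h1 : (ContinuousLinearMap.adjoint T).det =
      LinearMap.det (LinearMap.adjoint (T : E n →ₗ[ℝ] E n)) := rfl
  have h2 : T.det = LinearMap.det (T : E n →ₗ[ℝ] E n) := rfl
  rw [h1, h2, ← LinearMap.det_toMatrix (EuclideanSpace.basisFun (Fin n) ℝ).toBasis,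
    ← LinearMap.det_toMatrix (EuclideanSpace.basisFun (Fin n) ℝ).toBasis,
    LinearMap.toMatrix_adjoint, Matrix.det_conjTranspose]
  simp

/-- finite sums of lower integrals -/
theorem sum_lintegral_le {α : Type} [MeasurableSpace α] (μ : Measure α) (F : ℕ → α → ℝ≥0∞)
    (N : ℕ) :
    ∑ k ∈ Finset.range N, ∫⁻ a, F k a ∂μ ≤ ∫⁻ a, ∑ k ∈ Finset.range N, F k a ∂μ := by
  induction N with
  | zero => simp
  | succ N ih =>
    simp only [Finset.sum_range_succ]
    exact (add_le_add ih le_rfl).trans (le_lintegral_add _ _)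

/-- pieces where `f` is injective -/
theorem exists_pieces {n : ℕ} (hn : 1 ≤ n) (f : E n → E n) (S : Set (E n))
    (hd : ∀ x ∈ S, DifferentiableAt ℝ f x) (hdet : ∀ x ∈ S, (fderiv ℝ f x).det ≠ 0) :
    ∃ t : ℕ → Set (E n), Pairwise (Function.onFun Disjoint t) ∧ (∀ k, MeasurableSet (t k)) ∧
      S ⊆ ⋃ k, t k ∧ ∀ k, InjOn f (S ∩ t k) := by
  have : Nontrivial (E n) := by
    have : NeZero n := ⟨by omega⟩
    infer_instance
  classical
  let r : (E n →L[ℝ] E n) → ℝ≥0 := fun A => if h : A.det ≠ 0 then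
    ‖((A.toContinuousLinearEquivOfDetNeZero h).symm : E n →L[ℝ] E n)‖₊⁻¹ / 2 else 1
  have hr : ∀ A, r A ≠ 0 := by
    intro A
    by_cases h : A.det ≠ 0
    · have h1 := (A.toContinuousLinearEquivOfDetNeZero h).nnnorm_symm_pos
      simp only [r, dif_pos h]
      exact (half_pos (inv_pos.2 h1)).ne'
    · simp only [r, dif_neg h]
      exact one_ne_zero
  obtain ⟨t, A, h1, h2, h3, h4, h5⟩ :=
    exists_partition_approximatesLinearOn_of_hasFDerivWithinAt f S (fderiv ℝ f)
      (fun x hx => (hd x hx).hasFDerivAt.hasFDerivWithinAt) r hr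
  refine ⟨t, h1, h2, h3, fun k => ?_⟩
  rcases S.eq_empty_or_nonempty with hS | hS
  · simp [hS]
  · obtain ⟨y, hy, hAy⟩ := h5 hS k
    have hdet' : (A k).det ≠ 0 := by rw [hAy]; exact hdet y hy
    have h6 := h4 k
    have h7 : r (A k) = ‖(((A k).toContinuousLinearEquivOfDetNeZero hdet').symm :
      E n →L[ℝ] E n)‖₊⁻¹ / 2 := by
      simp only [r, dif_pos hdet']
    have h8 := ((A k).toContinuousLinearEquivOfDetNeZero hdet').nnnorm_symm_pos
    have h9 : ApproximatesLinearOn f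
        (((A k).toContinuousLinearEquivOfDetNeZero hdet' : E n ≃L[ℝ] E n) : E n →L[ℝ] E n)
        (S ∩ t k) (r (A k)) := by
      rw [ContinuousLinearMap.coe_toContinuousLinearEquivOfDetNeZero]
      exact h6
    refine h9.injOn (Or.inr ?_)
    rw [h7]
    exact half_lt_self (inv_pos.2 h8)

/-- the estimate for the pieces -/
theorem piece_le {n : ℕ} (hn : 1 ≤ n) (p c : ℝ) (f : E n → E n) (S : Set (E n))
    (hp : (n : ℝ) < p) (hc : 0 < c) (hS : MeasurableSet S)
    (hd : ∀ x ∈ S, DifferentiableAt ℝ f x) (hdet : ∀ x ∈ S, (fderiv ℝ f x).det ≠ 0)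
    (hdist : ∀ x ∈ S, ∀ η : E n, c * ‖fderiv ℝ f x‖ * ‖η‖ ≤ ‖Dt f x η‖)
    (hinj : InjOn f S) (g : E n → ℝ≥0∞) :
    ∫⁻ x in S, g (f x) * ENNReal.ofReal (‖fderiv ℝ f x‖ ^ p) ≤
      ENNReal.ofReal (1 / c ^ n) * ∫⁻ z in f '' S, g z *
        ENNReal.ofReal (‖fderiv ℝ f (Function.invFunOn f S z)‖ ^ (p - n)) := by
  rw [lintegral_image_eq_lintegral_abs_det_fderiv_mul volume hS
    (fun x hx => (hd x hx).hasFDerivAt.hasFDerivWithinAt) hinj,
    ← lintegral_const_mul' _ _ ENNReal.ofReal_ne_top]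
  refine setLIntegral_mono' hS fun x hx => ?_
  have h1 : Function.invFunOn f S (f x) = x :=
    hinj.leftInvOn_invFunOn hx
  rw [h1]
  have hne : fderiv ℝ f x ≠ 0 := by
    intro h0
    have h3 := hdet x hx
    rw [h0] at h3
    apply h3
    have h2 : (0 : E n →L[ℝ] E n).det = LinearMap.det (0 : E n →ₗ[ℝ] E n) := rfl
    rw [h2, LinearMap.det_zero, finrank_euclideanSpace_fin, zero_pow (by omega)]
  have hL : 0 < ‖fderiv ℝ f x‖ := norm_pos_iff.2 hne
  have h4 : (c * ‖fderiv ℝ f x‖) ^ n ≤ |(fderiv ℝ f x).det| := by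
    rw [← adjoint_det]
    exact pow_le_abs_det _ _ (mul_pos hc hL) (hdist x hx)
  have h5 : ‖fderiv ℝ f x‖ ^ p ≤ 1 / c ^ n * |(fderiv ℝ f x).det| *
      ‖fderiv ℝ f x‖ ^ (p - n) := by
    have h6 : ‖fderiv ℝ f x‖ ^ p = ‖fderiv ℝ f x‖ ^ n * ‖fderiv ℝ f x‖ ^ (p - n) := by
      rw [← Real.rpow_natCast, ← Real.rpow_add hL]
      congr 1
      ring
    rw [h6]
    refine mul_le_mul_of_nonneg_right ?_ (Real.rpow_nonneg hL.le _)
    rw [mul_pow] at h4
    have h7 : 0 < c ^ n := pow_pos hc n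
    rw [div_mul_eq_mul_div, one_mul, le_div_iff₀ h7]
    linarith
  calc g (f x) * ENNReal.ofReal (‖fderiv ℝ f x‖ ^ p)
      ≤ g (f x) * ENNReal.ofReal (1 / c ^ n * |(fderiv ℝ f x).det| *
        ‖fderiv ℝ f x‖ ^ (p - n)) := mul_le_mul_right (ENNReal.ofReal_le_ofReal h5) _
    _ = ENNReal.ofReal (1 / c ^ n) * (ENNReal.ofReal |(fderiv ℝ f x).det| *
        (g (f x) * ENNReal.ofReal (‖fderiv ℝ f x‖ ^ (p - n)))) := by
      rw [ENNReal.ofReal_mul (by positivity), ENNReal.ofReal_mul (by positivity)]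
      ring

/-- if the derivative is not invertible, it vanishes -/
theorem fderiv_eq_zero {n : ℕ} (c : ℝ) (f : E n → E n) (x : E n) (hc : 0 < c)
    (hdist : ∀ η : E n, c * ‖fderiv ℝ f x‖ * ‖η‖ ≤ ‖Dt f x η‖)
    (h : (fderiv ℝ f x).det = 0) : fderiv ℝ f x = 0 := by
  by_contra hne
  have hL : 0 < ‖fderiv ℝ f x‖ := norm_pos_iff.2 hne
  have h4 : (c * ‖fderiv ℝ f x‖) ^ n ≤ |(fderiv ℝ f x).det| := by
    rw [← adjoint_det]
    exact pow_le_abs_det _ _ (mul_pos hc hL) hdist
  rw [h, abs_zero] at h4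
  exact absurd h4 (not_le.2 (pow_pos (mul_pos hc hL) n))

/-- **ED** -/
theorem ed : EdStatement := by
  intro n p c C f S hn hp hc hC _hf hS hd hdist hsum g _hg
  classical
  have hp0 : 0 < p := lt_of_le_of_lt (Nat.cast_nonneg n) hp
  set S' : Set (E n) := S ∩ {x | (fderiv ℝ f x).det ≠ 0} with hS'
  have hmeasdet : Measurable fun x => (fderiv ℝ f x).det :=
    ContinuousLinearMap.continuous_det.measurable.comp (measurable_fderiv ℝ f)
  have hS'm : MeasurableSet S' := hS.inter (hmeasdet (measurableSet_singleton 0).compl)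
  obtain ⟨t, ht1, ht2, ht3, ht4⟩ := exists_pieces hn f S' (fun x hx => hd x hx.1) fun x hx => hx.2
  set F : E n → ℝ≥0∞ := fun x => g (f x) * ENNReal.ofReal (‖fderiv ℝ f x‖ ^ p) with hF
  -- the part where the derivative is not invertible
  have e1 : ∫⁻ x in S, F x = ∫⁻ x in S', F x := by
    rw [← lintegral_inter_add_diff (μ := volume) F S
      (hmeasdet (measurableSet_singleton (0 : ℝ)).compl)]
    have h0 : ∫⁻ x in S \ ((fun x => (fderiv ℝ f x).det) ⁻¹' {0}ᶜ), F x = 0 := by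
      rw [setLIntegral_congr_fun (g := fun _ => 0)
        (hS.diff (hmeasdet (measurableSet_singleton (0 : ℝ)).compl))]
      · simp
      · intro x hx
        have hx0 : (fderiv ℝ f x).det = 0 := by
          have := hx.2
          simpa using this
        have := fderiv_eq_zero c f x hc (hdist x hx.1) hx0
        simp [hF, this, Real.zero_rpow hp0.ne']
    rw [h0, add_zero]
    rfl
  have e2 : S' = ⋃ k, (S' ∩ t k) := by
    rw [← inter_iUnion]
    exact (inter_eq_left.2 ht3).symm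
  have e3 : ∫⁻ x in S', F x = ∑' k, ∫⁻ x in S' ∩ t k, F x := by
    conv_lhs => rw [e2]
    exact lintegral_iUnion (fun k => hS'm.inter (ht2 k))
      (fun i j hij => (ht1 hij).mono inter_subset_right inter_subset_right) F
  let G : ℕ → E n → ℝ≥0∞ := fun k z => (f '' (S' ∩ t k)).indicator (fun z => g z *
    ENNReal.ofReal (‖fderiv ℝ f (Function.invFunOn f (S' ∩ t k) z)‖ ^ (p - n))) z
  have himm : ∀ k, MeasurableSet (f '' (S' ∩ t k)) := fun k =>
    measurable_image_of_fderivWithin (hS'm.inter (ht2 k))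
      (fun x hx => (hd x hx.1.1).hasFDerivAt.hasFDerivWithinAt) (ht4 k)
  have e4 : ∀ k, ∫⁻ x in S' ∩ t k, F x ≤ ENNReal.ofReal (1 / c ^ n) * ∫⁻ z, G k z := by
    intro k
    have h1 := piece_le hn p c f (S' ∩ t k) hp hc (hS'm.inter (ht2 k)) (fun x hx => hd x hx.1.1)
      (fun x hx => hx.1.2) (fun x hx => hdist x hx.1.1) (ht4 k) g
    refine h1.trans (mul_le_mul_right (le_of_eq ?_) _)
    exact (lintegral_indicator (himm k) _).symm
  have e5 : ∀ N : ℕ, ∀ z, ∑ k ∈ Finset.range N, G k z ≤ ENNReal.ofReal C * g z := by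
    intro N z
    set s : Finset ℕ := (Finset.range N).filter fun k => z ∈ f '' (S' ∩ t k) with hs
    have h1 : ∑ k ∈ Finset.range N, G k z = ∑ k ∈ s, g z * ENNReal.ofReal
        (‖fderiv ℝ f (Function.invFunOn f (S' ∩ t k) z)‖ ^ (p - n)) := by
      rw [hs, Finset.sum_filter]
      refine Finset.sum_congr rfl fun k _ => ?_
      by_cases hk : z ∈ f '' (S' ∩ t k)
      · simp only [G, indicator_of_mem hk, if_pos hk]
      · simp only [G, indicator_of_notMem hk, if_neg hk]
    have hmem : ∀ k ∈ s, Function.invFunOn f (S' ∩ t k) z ∈ S' ∩ t k ∧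
        f (Function.invFunOn f (S' ∩ t k) z) = z := by
      intro k hk
      have h2 : ∃ a ∈ S' ∩ t k, f a = z := (Finset.mem_filter.1 hk).2
      exact ⟨Function.invFunOn_mem h2, Function.invFunOn_eq h2⟩
    have hinj : Set.InjOn (fun k => Function.invFunOn f (S' ∩ t k) z) (s : Set ℕ) := by
      intro i hi j hj hij
      by_contra hne
      have h3 := (hmem i hi).1.2
      have h4 := (hmem j hj).1.2
      simp only at hij
      rw [hij] at h3
      exact disjoint_left.1 (ht1 hne) h3 h4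
    have h5 := hsum z (s.image fun k => Function.invFunOn f (S' ∩ t k) z)
      (fun x hx => by
        obtain ⟨k, hk, rfl⟩ := Finset.mem_image.1 hx
        exact (hmem k hk).1.1.1)
      (fun x hx => by
        obtain ⟨k, hk, rfl⟩ := Finset.mem_image.1 hx
        exact (hmem k hk).2)
    rw [Finset.sum_image hinj] at h5
    rw [h1, ← Finset.mul_sum, ← ENNReal.ofReal_sum_of_nonneg
      (fun k _ => Real.rpow_nonneg (norm_nonneg _) _), mul_comm]
    exact mul_le_mul_left (ENNReal.ofReal_le_ofReal h5) _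
  have e6 : ∀ N : ℕ, ∑ k ∈ Finset.range N, ∫⁻ x in S' ∩ t k, F x ≤
      ENNReal.ofReal (C / c ^ n) * ∫⁻ z, g z := by
    intro N
    calc ∑ k ∈ Finset.range N, ∫⁻ x in S' ∩ t k, F x
        ≤ ∑ k ∈ Finset.range N, ENNReal.ofReal (1 / c ^ n) * ∫⁻ z, G k z :=
          Finset.sum_le_sum fun k _ => e4 k
      _ = ENNReal.ofReal (1 / c ^ n) * ∑ k ∈ Finset.range N, ∫⁻ z, G k z := by
          rw [Finset.mul_sum]
      _ ≤ ENNReal.ofReal (1 / c ^ n) * ∫⁻ z, ∑ k ∈ Finset.range N, G k z :=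
          mul_le_mul_right (sum_lintegral_le _ _ _) _
      _ ≤ ENNReal.ofReal (1 / c ^ n) * ∫⁻ z, ENNReal.ofReal C * g z :=
          mul_le_mul_right (lintegral_mono fun z => e5 N z) _
      _ = ENNReal.ofReal (C / c ^ n) * ∫⁻ z, g z := by
          rw [lintegral_const_mul' _ _ ENNReal.ofReal_ne_top, ← mul_assoc,
            ← ENNReal.ofReal_mul (by positivity)]
          congr 2
          ring
  rw [e1, e3]
  exact ENNReal.tsum_le_of_sum_range_le e6

end Pool.Agent.Lib.MP_abd978_an.UN.H52
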