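import Pool.Agent.Lib.MP_abd978_an.UN.H52.H0c

/-!
# Project UNW, module GEOV
-/

set_option autoImplicit false

open MeasureTheory Metric Set Filter Topology ContDiff
open scoped Gradient RealInnerProductSpace NNReal ENNReal

namespace Pool.Agent.Lib.MP_abd978_an.UN.H52

theorem volume_real_ball {n : ℕ} (z : E n) (r : ℝ) (hr : 0 < r) :
    volume.real (ball z r) = r ^ n * volume.real (ball (0 : E n) 1) := by
  rw [Measure.real, Measure.real, Measure.addHaar_ball_of_pos _ _ hr,
    finrank_euclideanSpace_fin, ENNReal.toReal_mul, ENNReal.toReal_ofReal (by positivity)]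

theorem unit_ball_pos (n : ℕ) : 0 < volume.real (ball (0 : E n) 1) :=
  ENNReal.toReal_pos (measure_ball_pos _ _ one_pos).ne' measure_ball_lt_top.ne

theorem memLp_ball {n : ℕ} {F : Type} [NormedAddCommGroup F] [SecondCountableTopology F]
    (f : E n → F) (hf : Continuous f) (z : E n) (r : ℝ) (p : ℝ≥0∞) :
    MemLp f p (volume.restrict (ball z r)) := by
  obtain ⟨C, hC⟩ := (isCompact_closedBall z r).exists_bound_of_continuousOn hf.continuousOn
  have : IsFiniteMeasure ((volume : Measure (E n)).restrict (ball z r)) :=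
    ⟨by rw [Measure.restrict_apply_univ]; exact measure_ball_lt_top⟩
  refine MemLp.of_bound (hf.aestronglyMeasurable) C ?_
  refine (ae_restrict_iff' measurableSet_ball).2 (Eventually.of_forall fun x hx => ?_)
  exact hC x (ball_subset_closedBall hx)

theorem integrableOn_ball {n : ℕ} (f : E n → ℝ) (hf : Continuous f) (z : E n) (r : ℝ) :
    IntegrableOn f (ball z r) volume :=
  memLp_one_iff_integrable.1 (memLp_ball f hf z r 1)

theorem avg_le {n : ℕ} (f : E n → ℝ) (hf : Continuous f) (z : E n) (r c : ℝ) (hr : 0 < r)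
    (h : ∀ x ∈ ball z r, f x ≤ c) : ⨍ x in ball z r, f x ≤ c := by
  have hV : 0 < volume.real (ball z r) :=
    ENNReal.toReal_pos (measure_ball_pos _ _ hr).ne' measure_ball_lt_top.ne
  rw [setAverage_eq, smul_eq_mul]
  have h1 : ∫ x in ball z r, f x ≤ ∫ _ in ball z r, c :=
    setIntegral_mono_on (integrableOn_ball f hf z r) (integrableOn_ball _ continuous_const z r)
      measurableSet_ball h
  rw [setIntegral_const, smul_eq_mul] at h1
  rw [inv_mul_le_iff₀ hV]
  exact h1

theorem avg_nonneg {n : ℕ} (f : E n → ℝ) (z : E n) (r : ℝ) (h : ∀ x, 0 ≤ f x) :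
    0 ≤ ⨍ x in ball z r, f x := by
  rw [setAverage_eq, smul_eq_mul]
  exact mul_nonneg (inv_nonneg.2 measureReal_nonneg) (integral_nonneg h)

/-- the oscillation estimate with means -/
theorem osc_le {n : ℕ} (hn : 1 ≤ n) (z : E n) (r q : ℝ) (φ : E n → ℝ) (hq : (n : ℝ) < q)
    (hr : 0 < r) (hφ : ContDiff ℝ ∞ φ) (x y : E n) (hx : x ∈ ball z r) (hy : y ∈ ball z r) :
    |φ x - φ y| ≤ cM n q * (volume.real (ball (0 : E n) 1)) ^ (1 / q) * r *
      (⨍ y in ball z r, ‖∇ φ y‖ ^ q) ^ (1 / q) := by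
  have hn' : (1 : ℝ) ≤ n := by exact_mod_cast hn
  have hq1 : 1 < q := by linarith
  have hq0 : 0 < q := by linarith
  have hV : 0 < volume.real (ball z r) :=
    ENNReal.toReal_pos (measure_ball_pos _ _ hr).ne' measure_ball_lt_top.ne
  have h1 := morrey_smooth z r q φ hq hq1 hr hφ.contDiffOn x y hx hy
  have hm := memLp_ball (fun x => ∇ φ x) (continuous_grad hφ) z r (ENNReal.ofReal q)
  have h2 := hm.eLpNorm_eq_integral_rpow_norm (by simpa using hq0) ENNReal.ofReal_ne_top
  rw [eLpNorm_eq_lintegral_rpow_enorm_toReal (by simpa using hq0) ENNReal.ofReal_ne_top,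
    ENNReal.toReal_ofReal hq0.le] at h2
  have hcM : 0 < cM n q := mul_pos (mul_pos (by norm_num) (div_pos hq0 (by linarith)))
    (Real.rpow_pos_of_pos (unit_ball_pos n) _)
  have hI : 0 ≤ ∫ y in ball z r, ‖∇ φ y‖ ^ q :=
    integral_nonneg fun y => Real.rpow_nonneg (norm_nonneg _) _
  rw [h2, ← ENNReal.ofReal_mul (by positivity), ← ofReal_norm,
    ENNReal.ofReal_le_ofReal_iff (by positivity), Real.norm_eq_abs] at h1
  refine h1.trans (le_of_eq ?_)
  have h3 : ∫ y in ball z r, ‖∇ φ y‖ ^ q = volume.real (ball z r) *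
      ⨍ y in ball z r, ‖∇ φ y‖ ^ q := by
    rw [setAverage_eq, smul_eq_mul, mul_inv_cancel_left₀ hV.ne']
  have hA : 0 ≤ ⨍ y in ball z r, ‖∇ φ y‖ ^ q :=
    avg_nonneg _ z r fun x => Real.rpow_nonneg (norm_nonneg _) _
  rw [h3, Real.mul_rpow hV.le hA, volume_real_ball z r hr,
    Real.mul_rpow (by positivity) (unit_ball_pos n).le, ← Real.rpow_natCast, ← Real.rpow_mul hr.le,
    one_div]
  have h4 : r ^ (1 - n / q) * r ^ ((n : ℝ) * q⁻¹) = r := by
    rw [← Real.rpow_add hr]
    have : 1 - (n : ℝ) / q + n * q⁻¹ = 1 := by ring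
    rw [this, Real.rpow_one]
  calc cM n q * r ^ (1 - n / q) * (r ^ ((n : ℝ) * q⁻¹) * volume.real (ball (0 : E n) 1) ^ q⁻¹ *
        (⨍ y in ball z r, ‖∇ φ y‖ ^ q) ^ q⁻¹) =
      cM n q * (r ^ (1 - n / q) * r ^ ((n : ℝ) * q⁻¹)) * volume.real (ball (0 : E n) 1) ^ q⁻¹ *
        (⨍ y in ball z r, ‖∇ φ y‖ ^ q) ^ q⁻¹ := by ring
    _ = _ := by rw [h4]; ring

/-- **GEOV** -/
theorem geov : GeovStatement := by
  intro n p hn hp
  have hn' : (1 : ℝ) ≤ n := by exact_mod_cast hn
  have hp1 : 1 < p := by linarith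
  have hp0 : 0 < p := by linarith
  have hcM : 0 < cM n p := mul_pos (mul_pos (by norm_num) (div_pos hp0 (by linarith)))
    (Real.rpow_pos_of_pos (unit_ball_pos n) _)
  set K : ℝ := cM n p * (volume.real (ball (0 : E n) 1)) ^ (1 / p) with hK
  have hKpos : 0 < K := mul_pos hcM (Real.rpow_pos_of_pos (unit_ball_pos n) _)
  refine ⟨hp1, inferInstance, ?_, ?_, ?_, ?_⟩
  · intro z r hr
    exact ENNReal.toReal_pos (measure_ball_pos _ _ hr).ne' measure_ball_lt_top.ne
  · refine ⟨2 ^ n, one_le_pow₀ (by norm_num), fun z r hr => ?_⟩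
    rw [volume_real_ball z (2 * r) (by linarith), volume_real_ball z r hr, mul_pow, mul_assoc]
  · refine ⟨2, by norm_num, K * 2, by positivity, ?_⟩
    intro z r hr φ hφ
    have hA : 0 ≤ ⨍ y in ball z r, ‖∇ φ y‖ ^ p :=
      avg_nonneg _ z r fun x => Real.rpow_nonneg (norm_nonneg _) _
    have hz : ∀ x, x ∉ ball z r → φ x = 0 := fun x hx =>
      image_eq_zero_of_notMem_tsupport fun hx' => hx (hφ.2.2 hx')
    have h2r : ⨍ y in ball z (2 * r), ‖∇ φ y‖ ^ p ≤ ⨍ y in ball z r, ‖∇ φ y‖ ^ p := by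
      have hV : 0 < volume.real (ball z r) :=
        ENNReal.toReal_pos (measure_ball_pos _ _ hr).ne' measure_ball_lt_top.ne
      have hint : ∫ y in ball z (2 * r), ‖∇ φ y‖ ^ p = ∫ y in ball z r, ‖∇ φ y‖ ^ p := by
        refine setIntegral_eq_of_subset_of_forall_diff_eq_zero measurableSet_ball
          (ball_subset_ball (by linarith)) fun y hy => ?_
        rw [grad_eq_zero_of_notMem fun hy' => hy.2 (hφ.2.2 hy'), norm_zero,
          Real.zero_rpow hp0.ne']
      rw [setAverage_eq, setAverage_eq, smul_eq_mul, smul_eq_mul, hint]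
      refine mul_le_mul_of_nonneg_right ?_
        (integral_nonneg fun y => Real.rpow_nonneg (norm_nonneg _) _)
      refine inv_anti₀ hV ?_
      exact measureReal_mono (ball_subset_ball (by linarith)) measure_ball_lt_top.ne
    set c : ℝ := K * 2 * r * (⨍ y in ball z r, ‖∇ φ y‖ ^ p) ^ (1 / p) with hc
    have hc0 : 0 ≤ c := by positivity
    have hsup : ∀ x, |φ x| ≤ c := by
      intro x
      by_cases hx : x ∈ ball z r
      · obtain ⟨x', hx', hx'2⟩ := exists_far hn z r hr
        have h1 := osc_le hn z (2 * r) p φ hp (by linarith) hφ.1 x x'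
          (ball_subset_ball (by linarith) hx) hx'
        rw [hz x' hx'2, sub_zero] at h1
        refine h1.trans ?_
        have h2 : (⨍ y in ball z (2 * r), ‖∇ φ y‖ ^ p) ^ (1 / p) ≤
            (⨍ y in ball z r, ‖∇ φ y‖ ^ p) ^ (1 / p) :=
          Real.rpow_le_rpow (avg_nonneg _ z (2 * r) fun x => Real.rpow_nonneg (norm_nonneg _) _)
            h2r (by positivity)
        calc K * (2 * r) * (⨍ y in ball z (2 * r), ‖∇ φ y‖ ^ p) ^ (1 / p)
            ≤ K * (2 * r) * (⨍ y in ball z r, ‖∇ φ y‖ ^ p) ^ (1 / p) :=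
              mul_le_mul_of_nonneg_left h2 (by positivity)
          _ = c := by rw [hc]; ring
      · rw [hz x hx, abs_zero]; exact hc0
    have h3 : ⨍ y in ball z r, |φ y| ^ (2 * p) ≤ c ^ (2 * p) := by
      refine avg_le _ ?_ z r _ hr fun x _ => Real.rpow_le_rpow (abs_nonneg _) (hsup x)
        (by positivity)
      exact (hφ.1.continuous.abs).rpow_const fun x => Or.inr (by positivity)
    calc (⨍ y in ball z r, |φ y| ^ (2 * p)) ^ (1 / (2 * p)) ≤ (c ^ (2 * p)) ^ (1 / (2 * p)) :=
          Real.rpow_le_rpow (avg_nonneg _ z r fun x => Real.rpow_nonneg (abs_nonneg _) _) h3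
            (by positivity)
      _ = c := by
          rw [← Real.rpow_mul hc0, mul_one_div_cancel (by positivity), Real.rpow_one]
  · refine ⟨K, hKpos, ?_⟩
    intro z r hr φ hφ
    have hV : 0 < volume.real (ball z r) :=
      ENNReal.toReal_pos (measure_ball_pos _ _ hr).ne' measure_ball_lt_top.ne
    refine avg_le _ (by have := hφ.continuous; fun_prop) z r _ hr fun y hy => ?_
    have h1 : φ y - ⨍ x in ball z r, φ x = ⨍ x in ball z r, (φ y - φ x) := by
      rw [setAverage_eq, setAverage_eq, smul_eq_mul, smul_eq_mul, integral_sub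
        (integrableOn_ball _ continuous_const z r) (integrableOn_ball _ hφ.continuous z r),
        setIntegral_const, smul_eq_mul, mul_sub, inv_mul_cancel_left₀ hV.ne']
    rw [h1]
    have h2 : ∀ x ∈ ball z r, |φ y - φ x| ≤ K * r * (⨍ y in ball z r, ‖∇ φ y‖ ^ p) ^ (1 / p) :=
      fun x hx => osc_le hn z r p φ hp hr hφ y x hy hx
    rw [abs_le]
    constructor
    · have := avg_le (fun x => -(φ y - φ x)) (by have := hφ.continuous; fun_prop) z r _ hr
        fun x hx => (neg_le_abs _).trans (h2 x hx)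
      rw [setAverage_eq, integral_neg, smul_neg, ← setAverage_eq] at this
      linarith
    · exact avg_le (fun x => φ y - φ x) (by have := hφ.continuous; fun_prop) z r _ hr
        fun x hx => (le_abs_self _).trans (h2 x hx)

end Pool.Agent.Lib.MP_abd978_an.UN.H52
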