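import Pool.Agent.Lib.MP_abd978_an.UN.H52.Morrey

/-!
# Project UNW, module H0C
-/

set_option autoImplicit false

open MeasureTheory Metric Set Filter Topology ContDiff
open scoped Gradient RealInnerProductSpace NNReal ENNReal

namespace Pool.Agent.Lib.MP_abd978_an.UN.H52

theorem exists_far {n : ℕ} (hn : 1 ≤ n) (z : E n) (R : ℝ) (hR : 0 < R) :
    ∃ x : E n, x ∈ ball z (2 * R) ∧ x ∉ ball z R := by
  refine ⟨z + R • EuclideanSpace.single (⟨0, hn⟩ : Fin n) 1, ?_, ?_⟩
  · rw [mem_ball, dist_eq_norm, add_sub_cancel_left, norm_smul, PiLp.norm_single,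
      norm_one, mul_one, Real.norm_of_nonneg hR.le]
    linarith
  · rw [mem_ball, dist_eq_norm, add_sub_cancel_left, norm_smul, PiLp.norm_single,
      norm_one, mul_one, Real.norm_of_nonneg hR.le]
    exact lt_irrefl _

/-- sup bound for smooth functions vanishing outside of `ball z R` -/
theorem sup_le {n : ℕ} (hn : 1 ≤ n) (z : E n) (R q : ℝ) (φ : E n → ℝ) (hq : (n : ℝ) < q)
    (hR : 0 < R) (hφ : ContDiff ℝ ∞ φ) (h0 : ∀ x, x ∉ ball z R → φ x = 0) (x : E n) :
    ‖φ x‖ₑ ≤ ENNReal.ofReal (cM n q * (2 * R) ^ (1 - n / q)) *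
      eLpNorm (fun x => ∇ φ x) (ENNReal.ofReal q) volume := by
  have hn' : (1 : ℝ) ≤ n := by exact_mod_cast hn
  have hq1 : 1 < q := by linarith
  have hq0 : 0 < q := by linarith
  by_cases hx : x ∈ ball z R
  · obtain ⟨x', hx', hx'2⟩ := exists_far hn z R hR
    have h1 := morrey_smooth z (2 * R) q φ hq hq1 (by linarith) hφ.contDiffOn x x'
      (ball_subset_ball (by linarith) hx) hx'
    rw [h0 x' hx'2, sub_zero] at h1
    refine h1.trans (mul_le_mul_right ?_ _)
    rw [eLpNorm_eq_lintegral_rpow_enorm_toReal (by simpa using hq0) ENNReal.ofReal_ne_top,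
      ENNReal.toReal_ofReal hq0.le]
    exact ENNReal.rpow_le_rpow (setLIntegral_le_lintegral _ _) (by positivity)
  · rw [h0 x hx, enorm_zero]
    exact zero_le

/-- approximating test functions converge uniformly -/
theorem h0_unif {n : ℕ} {q : ℝ} (hn : 1 ≤ n) (hq : (n : ℝ) < q) {D : Set (E n)} {z : E n} {R : ℝ}
    {u : E n → ℝ} {V : E n → E n} (hR : 0 < R) (hDR : D ⊆ ball z R)
    (hu2 : MemLp u (ENNReal.ofReal q) volume) (hV2 : MemLp V (ENNReal.ofReal q) volume)
    {ψ : ℕ → E n → ℝ} (hψ : ∀ i, Test D (ψ i))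
    (hψu : Tendsto (fun i => eLpNorm (fun x => ψ i x - u x) (ENNReal.ofReal q) volume) atTop (𝓝 0))
    (hψV : Tendsto (fun i => eLpNorm (fun x => ∇ (ψ i) x - V x) (ENNReal.ofReal q) volume)
      atTop (𝓝 0)) :
    ∃ u' : E n → ℝ, Continuous u' ∧ u' =ᵐ[volume] u ∧ TendstoUniformlyOn ψ u' atTop univ := by
  have hn' : (1 : ℝ) ≤ n := by exact_mod_cast hn
  have hq1 : 1 < q := by linarith
  have hq0 : 0 < q := by linarith
  have hqe : ENNReal.ofReal q ≠ 0 := by simpa using hq0
  have hq1' : 1 ≤ ENNReal.ofReal q := by simpa using hq1.le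
  set c : ℝ≥0∞ := ENNReal.ofReal (cM n q * (2 * R) ^ (1 - n / q)) with hc
  have hzero : ∀ i, ∀ x, x ∉ D → ψ i x = 0 := by
    intro i x hx
    have h1 : x ∉ tsupport (ψ i) := fun hx' => hx ((hψ i).2.2 hx')
    exact image_eq_zero_of_notMem_tsupport h1
  have hzero' : ∀ i, ∀ x, x ∉ ball z R → ψ i x = 0 := fun i x hx =>
    hzero i x fun hx' => hx (hDR hx')
  have hmg : ∀ i, AEStronglyMeasurable (fun x => ∇ (ψ i) x) (volume : Measure (E n)) := fun i =>
    (measurable_grad _).aestronglyMeasurable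
  -- differences
  have hcau : ∀ i j x, ‖ψ i x - ψ j x‖ₑ ≤
      c * (eLpNorm (fun x => ∇ (ψ i) x - V x) (ENNReal.ofReal q) volume +
        eLpNorm (fun x => ∇ (ψ j) x - V x) (ENNReal.ofReal q) volume) := by
    intro i j x
    have h1 := sup_le hn z R q (fun x => ψ i x - ψ j x) hq hR ((hψ i).1.sub (hψ j).1)
      (fun x hx => by rw [hzero' i x hx, hzero' j x hx, sub_zero]) x
    refine h1.trans (mul_le_mul_right ?_ _)
    have h2 : (fun x => ∇ (fun x => ψ i x - ψ j x) x) =
        (fun x => ∇ (ψ i) x - V x) - fun x => ∇ (ψ j) x - V x := by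
      ext1 x
      rw [Pi.sub_apply, grad_sub ((hψ i).1.differentiable (by simp) x)
        ((hψ j).1.differentiable (by simp) x)]
      abel
    rw [h2]
    exact eLpNorm_sub_le ((hmg i).sub hV2.1) ((hmg j).sub hV2.1) hq1'
  have hb : Tendsto (fun i => c * eLpNorm (fun x => ∇ (ψ i) x - V x) (ENNReal.ofReal q) volume)
      atTop (𝓝 0) := by
    have := ENNReal.Tendsto.const_mul hψV (Or.inr (ENNReal.ofReal_ne_top :
      ENNReal.ofReal (cM n q * (2 * R) ^ (1 - n / q)) ≠ ⊤))
    rwa [mul_zero] at this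
  have hUC : UniformCauchySeqOn ψ atTop univ := by
    rw [Metric.uniformCauchySeqOn_iff]
    intro ε hε
    have h1 : ∀ᶠ i in atTop, c * eLpNorm (fun x => ∇ (ψ i) x - V x) (ENNReal.ofReal q) volume <
        ENNReal.ofReal (ε / 2) :=
      hb.eventually_lt_const (by simpa using hε)
    obtain ⟨N, hN⟩ := eventually_atTop.1 h1
    refine ⟨N, fun i hi j hj x _ => ?_⟩
    have h2 : ‖ψ i x - ψ j x‖ₑ < ENNReal.ofReal ε := by
      refine (hcau i j x).trans_lt ?_
      rw [mul_add]
      have h3 : ENNReal.ofReal ε = ENNReal.ofReal (ε / 2) + ENNReal.ofReal (ε / 2) := by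
        rw [← ENNReal.ofReal_add (by positivity) (by positivity), add_halves]
      rw [h3]
      exact ENNReal.add_lt_add (hN i hi) (hN j hj)
    rw [← ofReal_norm, ENNReal.ofReal_lt_ofReal_iff hε] at h2
    rwa [dist_eq_norm]
  have hlim : ∀ x, ∃ y, Tendsto (fun i => ψ i x) atTop (𝓝 y) := fun x =>
    cauchySeq_tendsto_of_complete (hUC.cauchySeq (mem_univ x))
  choose u' hu' using hlim
  have hTU : TendstoUniformlyOn ψ u' atTop univ :=
    hUC.tendstoUniformlyOn_of_tendsto fun x _ => hu' x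
  have hcont : Continuous u' :=
    (tendstoUniformlyOn_univ.1 hTU).continuous (Eventually.of_forall fun i =>
      (hψ i).1.continuous).frequently
  have hmeas : ∀ i, AEStronglyMeasurable (ψ i) (volume : Measure (E n)) := fun i =>
    (hψ i).1.continuous.aestronglyMeasurable
  have hTM : TendstoInMeasure (volume : Measure (E n)) ψ atTop u :=
    tendstoInMeasure_of_tendsto_eLpNorm hqe hmeas hu2.1 hψu
  obtain ⟨ns, hns, hae⟩ := hTM.exists_seq_tendsto_ae
  refine ⟨u', hcont, ?_, hTU⟩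
  filter_upwards [hae] with x hx
  exact tendsto_nhds_unique ((hu' x).comp hns.tendsto_atTop) hx

/-- **H0C** -/
theorem h0c : H0cStatement := by
  intro n q hn hq
  have hn' : (1 : ℝ) ≤ n := by exact_mod_cast hn
  have hq1 : 1 < q := by linarith
  have hq0 : 0 < q := by linarith
  have hωpos : 0 < volume.real (ball (0 : E n) 1) :=
    ENNReal.toReal_pos (measure_ball_pos _ _ one_pos).ne' measure_ball_lt_top.ne
  have hcM : 0 < cM n q :=
    mul_pos (mul_pos (by norm_num) (div_pos hq0 (by linarith))) (Real.rpow_pos_of_pos hωpos _)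
  refine ⟨cM n q * 2 ^ (1 - n / q), by positivity, ?_⟩
  intro D z R u V hR hD hDR h
  obtain ⟨hu2, hV2, ψ, hψ, hψu, hψV⟩ := h
  have hqe : ENNReal.ofReal q ≠ 0 := by simpa using hq0
  have hqt : ENNReal.ofReal q ≠ ⊤ := ENNReal.ofReal_ne_top
  have hqr : (ENNReal.ofReal q).toReal = q := ENNReal.toReal_ofReal hq0.le
  have hq1' : 1 ≤ ENNReal.ofReal q := by simpa using hq1.le
  set c : ℝ≥0∞ := ENNReal.ofReal (cM n q * (2 * R) ^ (1 - n / q)) with hc
  have hzero : ∀ i, ∀ x, x ∉ D → ψ i x = 0 := by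
    intro i x hx
    have h1 : x ∉ tsupport (ψ i) := fun hx' => hx ((hψ i).2.2 hx')
    exact image_eq_zero_of_notMem_tsupport h1
  have hzero' : ∀ i, ∀ x, x ∉ ball z R → ψ i x = 0 := fun i x hx =>
    hzero i x fun hx' => hx (hDR hx')
  have hmg : ∀ i, AEStronglyMeasurable (fun x => ∇ (ψ i) x) (volume : Measure (E n)) := fun i =>
    (measurable_grad _).aestronglyMeasurable
  obtain ⟨u', hcont, hae, hTU⟩ := h0_unif hn hq hR hDR hu2 hV2 hψ hψu hψV
  have hu' : ∀ x, Tendsto (fun i => ψ i x) atTop (𝓝 (u' x)) := fun x =>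
    hTU.tendsto_at (mem_univ x)
  refine ⟨u', hcont, hae, ?_, ?_⟩
  · intro x hx
    refine tendsto_nhds_unique (hu' x) ?_
    simp only [hzero _ x hx]
    exact tendsto_const_nhds
  · intro x
    have h1 : Tendsto (fun i => ‖ψ i x‖ₑ) atTop (𝓝 ‖u' x‖ₑ) :=
      (continuous_enorm.tendsto _).comp (hu' x)
    have h2 : Tendsto (fun i => c * (eLpNorm (fun x => ∇ (ψ i) x - V x) (ENNReal.ofReal q) volume +
        eLpNorm V (ENNReal.ofReal q) volume)) atTop
        (𝓝 (c * (0 + eLpNorm V (ENNReal.ofReal q) volume))) := by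
      refine ENNReal.Tendsto.const_mul ?_ (Or.inr ENNReal.ofReal_ne_top)
      exact hψV.add tendsto_const_nhds
    rw [zero_add] at h2
    have h3 : ‖u' x‖ₑ ≤ c * eLpNorm V (ENNReal.ofReal q) volume := by
      refine le_of_tendsto_of_tendsto' h1 h2 fun i => ?_
      refine (sup_le hn z R q (ψ i) hq hR (hψ i).1 (hzero' i) x).trans (mul_le_mul_right ?_ _)
      have h3 : (fun x => ∇ (ψ i) x) = (fun x => ∇ (ψ i) x - V x) + V := by
        ext1 x; simp
      calc eLpNorm (fun x => ∇ (ψ i) x) (ENNReal.ofReal q) volume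
          = eLpNorm ((fun x => ∇ (ψ i) x - V x) + V) (ENNReal.ofReal q) volume := by rw [← h3]
        _ ≤ _ := eLpNorm_add_le ((hmg i).sub hV2.1) hV2.1 hq1'
    rw [hV2.eLpNorm_eq_integral_rpow_norm hqe hqt, hqr, hc, ← ENNReal.ofReal_mul
      (mul_nonneg hcM.le (Real.rpow_nonneg (by linarith) _)), ← ofReal_norm,
      ENNReal.ofReal_le_ofReal_iff (by positivity), Real.mul_rpow (by norm_num) hR.le] at h3
    rw [Real.norm_eq_abs] at h3
    rw [one_div q]
    refine h3.trans (le_of_eq ?_)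
    ring

end Pool.Agent.Lib.MP_abd978_an.UN.H52
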