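import Pool.Agent.Lib.MP_abd978_an.UN.Interfaces

/-!
# Project UNW, module MORREY
-/

set_option autoImplicit false

open MeasureTheory Metric Set Filter Topology ContDiff
open scoped Gradient RealInnerProductSpace NNReal ENNReal

namespace Pool.Agent.Lib.MP_abd978_an.UN.H52

/-- change of variables -/
theorem lintegral_comp_le {n : ℕ} (g : E n → ℝ≥0∞) (hg : Measurable g) (x₀ x : E n) (ρ t : ℝ)
    (hx : x ∈ ball x₀ ρ) (ht : 0 < t) (ht1 : t ≤ 1) :
    ∫⁻ y in ball x₀ ρ, g (x + t • (y - x)) ≤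
      ENNReal.ofReal (t ^ (-(n : ℝ))) * ∫⁻ z in ball x₀ ρ, g z := by
  set K : E n → ℝ≥0∞ := (ball x₀ ρ).indicator g with hK
  have hKm : Measurable K := hg.indicator measurableSet_ball
  have h1 : ∫⁻ y in ball x₀ ρ, g (x + t • (y - x)) ≤ ∫⁻ y, K (x + t • (y - x)) := by
    rw [← lintegral_indicator measurableSet_ball]
    refine lintegral_mono fun y => ?_
    by_cases hy : y ∈ ball x₀ ρ
    · have h2 : x + t • (y - x) ∈ ball x₀ ρ := by
        have h3 : x + t • (y - x) = (1 - t) • x + t • y := by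
          rw [smul_sub, sub_smul, one_smul]; abel
        rw [h3]
        exact convex_ball x₀ ρ hx hy (by linarith) ht.le (by ring)
      rw [indicator_of_mem hy, hK, indicator_of_mem h2]
    · rw [indicator_of_notMem hy]
      exact zero_le
  refine h1.trans (le_of_eq ?_)
  have h4 : ∫⁻ y, K (x + t • (y - x)) = ∫⁻ w, K (x + t • w) :=
    lintegral_sub_right_eq_self (fun w => K (x + t • w)) x
  have h5 : ∫⁻ w : E n, K (x + t • w) =
      ∫⁻ w, K (x + w) ∂(Measure.map (fun w : E n => t • w) volume) :=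
    (lintegral_map (f := fun w => K (x + w)) (hKm.comp (measurable_const_add x))
      (measurable_const_smul t)).symm
  rw [h4, h5, Measure.map_addHaar_smul _ ht.ne', lintegral_smul_measure,
    lintegral_add_left_eq_self (fun w => K w) x, finrank_euclideanSpace_fin,
    ← lintegral_indicator measurableSet_ball, smul_eq_mul]
  congr 2
  rw [abs_of_pos (by positivity), Real.rpow_neg ht.le, Real.rpow_natCast]

theorem lintegral_rpow_le (q : ℝ) (n : ℕ) (hn : (n : ℝ) < q) (hq : 0 < q) :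
    ∫⁻ t in Ioc (0 : ℝ) 1, ENNReal.ofReal (t ^ (-(n : ℝ) / q)) = ENNReal.ofReal (q / (q - n)) := by
  have h1 : -1 < -(n : ℝ) / q := by
    rw [neg_div, neg_lt_neg_iff, div_lt_one hq]; exact hn
  have hi : IntervalIntegrable (fun t : ℝ => t ^ (-(n : ℝ) / q)) volume 0 1 :=
    intervalIntegral.intervalIntegrable_rpow' h1
  have hi' : IntegrableOn (fun t : ℝ => t ^ (-(n : ℝ) / q)) (Ioc 0 1) volume :=
    (intervalIntegrable_iff_integrableOn_Ioc_of_le zero_le_one).1 hi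
  rw [← ofReal_integral_eq_lintegral_ofReal hi']
  · congr 1
    rw [← intervalIntegral.integral_of_le zero_le_one, integral_rpow (Or.inl h1)]
    have h2 : -(n : ℝ) / q + 1 = (q - n) / q := by field_simp; ring
    have h3 : (q - n) / q ≠ 0 := (div_pos (by linarith) hq).ne'
    rw [h2, Real.one_rpow, Real.zero_rpow h3, sub_zero, one_div_div]
  · refine (ae_restrict_iff' measurableSet_Ioc).2 (Eventually.of_forall fun t ht => ?_)
    exact Real.rpow_nonneg ht.1.le _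

/-- the fundamental theorem of calculus on segments -/
theorem enorm_sub_le_seg {n : ℕ} (x₀ : E n) (ρ : ℝ) (φ : E n → ℝ)
    (hφ : ContDiffOn ℝ ∞ φ (ball x₀ ρ)) (x y : E n) (hx : x ∈ ball x₀ ρ) (hy : y ∈ ball x₀ ρ) :
    ‖φ x - φ y‖ₑ ≤ ENNReal.ofReal (2 * ρ) *
      ∫⁻ t in Ioc (0 : ℝ) 1, ‖∇ φ (x + t • (y - x))‖ₑ := by
  have hseg : ∀ t ∈ Icc (0 : ℝ) 1, x + t • (y - x) ∈ ball x₀ ρ := by
    intro t ht
    have h3 : x + t • (y - x) = (1 - t) • x + t • y := by
      rw [smul_sub, sub_smul, one_smul]; abel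
    rw [h3]
    exact convex_ball x₀ ρ hx hy (by linarith [ht.2]) ht.1 (by ring)
  have hdiff : ∀ z ∈ ball x₀ ρ, DifferentiableAt ℝ φ z := fun z hz =>
    (hφ.differentiableOn (by simp)).differentiableAt (isOpen_ball.mem_nhds hz)
  have hcont : ContinuousOn (fderiv ℝ φ) (ball x₀ ρ) :=
    hφ.continuousOn_fderiv_of_isOpen isOpen_ball (by simp)
  have hder : ∀ t ∈ uIcc (0 : ℝ) 1, HasDerivAt (fun t : ℝ => φ (x + t • (y - x)))
      (fderiv ℝ φ (x + t • (y - x)) (y - x)) t := by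
    intro t ht
    rw [uIcc_of_le zero_le_one] at ht
    have h1 : HasDerivAt (fun t : ℝ => x + t • (y - x)) (y - x) t := by
      have := ((hasDerivAt_id t).smul_const (y - x)).const_add x
      simpa using this
    exact (hdiff _ (hseg t ht)).hasFDerivAt.comp_hasDerivAt t h1
  have hc : ContinuousOn (fun t : ℝ => fderiv ℝ φ (x + t • (y - x)) (y - x)) (Icc 0 1) := by
    have h1 : ContinuousOn (fun t : ℝ => fderiv ℝ φ (x + t • (y - x))) (Icc 0 1) :=
      hcont.comp (by fun_prop) hseg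
    exact h1.clm_apply continuousOn_const
  have hint : IntervalIntegrable (fun t : ℝ => fderiv ℝ φ (x + t • (y - x)) (y - x)) volume 0 1 :=
    ContinuousOn.intervalIntegrable (by rw [uIcc_of_le zero_le_one]; exact hc)
  have hftc := intervalIntegral.integral_eq_sub_of_hasDerivAt hder hint
  simp only [one_smul, zero_smul, add_zero, add_sub_cancel] at hftc
  have h2 : ‖φ x - φ y‖ₑ = ‖φ y - φ x‖ₑ := by
    rw [← enorm_neg, neg_sub]
  rw [h2, ← hftc, intervalIntegral.integral_of_le zero_le_one]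
  refine (enorm_integral_le_lintegral_enorm _).trans ?_
  rw [← lintegral_const_mul' _ _ ENNReal.ofReal_ne_top]
  refine lintegral_mono fun t => ?_
  have h3 : fderiv ℝ φ (x + t • (y - x)) (y - x) = ⟪∇ φ (x + t • (y - x)), y - x⟫ := by
    rw [gradient, InnerProductSpace.toDual_symm_apply]
  have h4 : ‖y - x‖ ≤ 2 * ρ := by
    rw [mem_ball] at hx hy
    rw [← dist_eq_norm]
    linarith [dist_triangle_right y x x₀]
  calc ‖fderiv ℝ φ (x + t • (y - x)) (y - x)‖ₑ
      = ENNReal.ofReal ‖⟪∇ φ (x + t • (y - x)), y - x⟫‖ := by rw [h3, ofReal_norm]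
    _ ≤ ENNReal.ofReal (2 * ρ * ‖∇ φ (x + t • (y - x))‖) := by
        refine ENNReal.ofReal_le_ofReal ((norm_inner_le_norm _ _).trans ?_)
        rw [mul_comm]
        exact mul_le_mul_of_nonneg_right h4 (norm_nonneg _)
    _ = ENNReal.ofReal (2 * ρ) * ‖∇ φ (x + t • (y - x))‖ₑ := by
        rw [ENNReal.ofReal_mul (by linarith [norm_nonneg (y - x)]), ofReal_norm]

theorem measurable_grad {n : ℕ} (φ : E n → ℝ) : Measurable fun x => ∇ φ x := by
  have h : Measurable (fderiv ℝ φ) := measurable_fderiv ℝ φ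
  exact (InnerProductSpace.toDual ℝ (E n)).symm.continuous.measurable.comp h

/-- Hoelder -/
theorem lintegral_comp_le' {n : ℕ} (g : E n → ℝ≥0∞) (hg : Measurable g) (x₀ x : E n) (ρ t q : ℝ)
    (hx : x ∈ ball x₀ ρ) (ht : 0 < t) (ht1 : t ≤ 1) (hq : 1 < q) :
    ∫⁻ y in ball x₀ ρ, g (x + t • (y - x)) ≤
      ENNReal.ofReal (t ^ (-(n : ℝ) / q)) * ((∫⁻ z in ball x₀ ρ, g z ^ q) ^ (1 / q) *
        volume (ball x₀ ρ) ^ (1 - 1 / q)) := by
  have hq0 : 0 < q := by linarith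
  have hconj : q.HolderConjugate (q / (q - 1)) := Real.HolderConjugate.conjExponent hq
  have hm : Measurable fun y : E n => g (x + t • (y - x)) := by
    refine hg.comp ?_
    fun_prop
  have h1 := ENNReal.lintegral_mul_le_Lp_mul_Lq (volume.restrict (ball x₀ ρ)) hconj
    (f := fun y => g (x + t • (y - x))) (g := fun _ => 1) hm.aemeasurable aemeasurable_const
  simp only [Pi.mul_apply, mul_one, ENNReal.one_rpow, lintegral_const, one_mul,
    Measure.restrict_apply_univ] at h1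
  have h2 : 1 / (q / (q - 1)) = 1 - 1 / q := by
    rw [one_div_div]; field_simp
  rw [h2] at h1
  refine h1.trans ?_
  rw [← mul_assoc]
  refine mul_le_mul_left ?_ _
  have h3 := lintegral_comp_le (fun z => g z ^ q) (hg.pow_const q) x₀ x ρ t hx ht ht1
  calc (∫⁻ y in ball x₀ ρ, g (x + t • (y - x)) ^ q) ^ (1 / q)
      ≤ (ENNReal.ofReal (t ^ (-(n : ℝ))) * ∫⁻ z in ball x₀ ρ, g z ^ q) ^ (1 / q) :=
        ENNReal.rpow_le_rpow h3 (by positivity)
    _ = ENNReal.ofReal (t ^ (-(n : ℝ) / q)) * (∫⁻ z in ball x₀ ρ, g z ^ q) ^ (1 / q) := by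
        rw [ENNReal.mul_rpow_of_nonneg _ _ (by positivity),
          ENNReal.ofReal_rpow_of_pos (Real.rpow_pos_of_pos ht _), ← Real.rpow_mul ht.le]
        congr 3
        ring

/-- the integrated form -/
theorem lintegral_enorm_sub_le {n : ℕ} (x₀ : E n) (ρ q : ℝ) (φ : E n → ℝ) (hn : (n : ℝ) < q)
    (hq : 1 < q) (hφ : ContDiffOn ℝ ∞ φ (ball x₀ ρ)) (x : E n) (hx : x ∈ ball x₀ ρ) :
    ∫⁻ y in ball x₀ ρ, ‖φ x - φ y‖ₑ ≤ ENNReal.ofReal (2 * ρ) * (ENNReal.ofReal (q / (q - n)) *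
      ((∫⁻ z in ball x₀ ρ, ‖∇ φ z‖ₑ ^ q) ^ (1 / q) * volume (ball x₀ ρ) ^ (1 - 1 / q))) := by
  have hq0 : 0 < q := by linarith
  have hg : Measurable fun z => ‖∇ φ z‖ₑ := (measurable_grad φ).enorm
  calc ∫⁻ y in ball x₀ ρ, ‖φ x - φ y‖ₑ
      ≤ ∫⁻ y in ball x₀ ρ, ENNReal.ofReal (2 * ρ) *
        ∫⁻ t in Ioc (0 : ℝ) 1, ‖∇ φ (x + t • (y - x))‖ₑ :=
        setLIntegral_mono' measurableSet_ball fun y hy => enorm_sub_le_seg x₀ ρ φ hφ x y hx hy
    _ = ENNReal.ofReal (2 * ρ) * ∫⁻ y in ball x₀ ρ,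
        ∫⁻ t in Ioc (0 : ℝ) 1, ‖∇ φ (x + t • (y - x))‖ₑ :=
        lintegral_const_mul' _ _ ENNReal.ofReal_ne_top
    _ = ENNReal.ofReal (2 * ρ) * ∫⁻ t in Ioc (0 : ℝ) 1,
        ∫⁻ y in ball x₀ ρ, ‖∇ φ (x + t • (y - x))‖ₑ := by
        rw [lintegral_lintegral_swap]
        refine Measurable.aemeasurable ?_
        refine hg.comp (f := fun p : E n × ℝ => x + p.2 • (p.1 - x)) ?_
        fun_prop
    _ ≤ ENNReal.ofReal (2 * ρ) * ∫⁻ t in Ioc (0 : ℝ) 1, ENNReal.ofReal (t ^ (-(n : ℝ) / q)) *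
        ((∫⁻ z in ball x₀ ρ, ‖∇ φ z‖ₑ ^ q) ^ (1 / q) * volume (ball x₀ ρ) ^ (1 - 1 / q)) := by
        refine mul_le_mul_right ?_ _
        exact setLIntegral_mono' measurableSet_Ioc fun t ht =>
          lintegral_comp_le' (fun z => ‖∇ φ z‖ₑ) hg x₀ x ρ t q hx ht.1 ht.2 hq
    _ = _ := by
        rw [lintegral_mul_const, lintegral_rpow_le q n hn hq0]
        exact ENNReal.measurable_ofReal.comp (by fun_prop)

/-- the constant of the Morrey inequality -/
noncomputable def cM (n : ℕ) (q : ℝ) : ℝ :=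
  4 * (q / (q - n)) * (volume.real (ball (0 : E n) 1)) ^ (-(1 / q))

/-- the inequality for smooth functions -/
theorem morrey_smooth {n : ℕ} (x₀ : E n) (ρ q : ℝ) (φ : E n → ℝ) (hn : (n : ℝ) < q)
    (hq : 1 < q) (hρ : 0 < ρ) (hφ : ContDiffOn ℝ ∞ φ (ball x₀ ρ)) (x x' : E n)
    (hx : x ∈ ball x₀ ρ) (hx' : x' ∈ ball x₀ ρ) :
    ‖φ x - φ x'‖ₑ ≤ ENNReal.ofReal (cM n q * ρ ^ (1 - n / q)) *
      (∫⁻ z in ball x₀ ρ, ‖∇ φ z‖ₑ ^ q) ^ (1 / q) := by
  have hq0 : 0 < q := by linarith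
  set V : ℝ := volume.real (ball x₀ ρ) with hV
  have hVpos : 0 < V := ENNReal.toReal_pos (measure_ball_pos _ _ hρ).ne' measure_ball_lt_top.ne
  have hVe : volume (ball x₀ ρ) = ENNReal.ofReal V :=
    (ENNReal.ofReal_toReal measure_ball_lt_top.ne).symm
  set w : ℝ := volume.real (ball (0 : E n) 1) with hw
  have hwpos : 0 < w := ENNReal.toReal_pos (measure_ball_pos _ _ one_pos).ne'
    measure_ball_lt_top.ne
  have hVw : V = ρ ^ n * w := by
    rw [hV, hw, Measure.real, Measure.real, Measure.addHaar_ball_of_pos _ _ hρ,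
      finrank_euclideanSpace_fin, ENNReal.toReal_mul, ENNReal.toReal_ofReal (by positivity)]
  set I : ℝ≥0∞ := (∫⁻ z in ball x₀ ρ, ‖∇ φ z‖ₑ ^ q) ^ (1 / q) with hI
  have hm : ∀ x : E n, AEMeasurable (fun y => ‖φ x - φ y‖ₑ) (volume.restrict (ball x₀ ρ)) := by
    intro x
    have h1 : ContinuousOn (fun y => φ x - φ y) (ball x₀ ρ) :=
      continuousOn_const.sub hφ.continuousOn
    exact (h1.aemeasurable measurableSet_ball).enorm
  have h1 : ENNReal.ofReal V * ‖φ x - φ x'‖ₑ ≤ 2 * (ENNReal.ofReal (2 * ρ) *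
      (ENNReal.ofReal (q / (q - n)) * (I * volume (ball x₀ ρ) ^ (1 - 1 / q)))) := by
    calc ENNReal.ofReal V * ‖φ x - φ x'‖ₑ = ∫⁻ _ in ball x₀ ρ, ‖φ x - φ x'‖ₑ := by
          rw [setLIntegral_const, hVe, mul_comm]
      _ ≤ ∫⁻ y in ball x₀ ρ, (‖φ x - φ y‖ₑ + ‖φ x' - φ y‖ₑ) := by
          refine lintegral_mono fun y => ?_
          have h2 : φ x - φ x' = (φ x - φ y) - (φ x' - φ y) := by ring
          rw [h2]
          exact enorm_sub_le
      _ = (∫⁻ y in ball x₀ ρ, ‖φ x - φ y‖ₑ) + ∫⁻ y in ball x₀ ρ, ‖φ x' - φ y‖ₑ :=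
          lintegral_add_left' (hm x) _
      _ ≤ _ := by
          rw [two_mul]
          exact add_le_add (lintegral_enorm_sub_le x₀ ρ q φ hn hq hφ x hx)
            (lintegral_enorm_sub_le x₀ ρ q φ hn hq hφ x' hx')
  have h3 : 2 * (ENNReal.ofReal (2 * ρ) *
      (ENNReal.ofReal (q / (q - n)) * (I * volume (ball x₀ ρ) ^ (1 - 1 / q)))) =
      ENNReal.ofReal V * (ENNReal.ofReal (cM n q * ρ ^ (1 - n / q)) * I) := by
    have h4 : (2 : ℝ≥0∞) = ENNReal.ofReal 2 := by simp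
    have h5 : 0 ≤ q / (q - n) := (div_pos hq0 (by linarith)).le
    rw [hVe, ENNReal.ofReal_rpow_of_pos hVpos, h4, mul_comm I, ← mul_assoc, ← mul_assoc,
      ← mul_assoc, ← mul_assoc, ← ENNReal.ofReal_mul (by norm_num), ← ENNReal.ofReal_mul
      (by positivity), ← ENNReal.ofReal_mul (by positivity), ← ENNReal.ofReal_mul (by positivity)]
    congr 2
    have h6 : V ^ (1 - 1 / q) = V * V ^ (-(1 / q)) := by
      rw [sub_eq_add_neg, Real.rpow_add hVpos, Real.rpow_one]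
    have h7 : V ^ (-(1 / q)) = ρ ^ (-(n / q)) * w ^ (-(1 / q)) := by
      rw [hVw, Real.mul_rpow (by positivity) hwpos.le, ← Real.rpow_natCast, ← Real.rpow_mul hρ.le]
      congr 2
      ring
    have h8 : ρ ^ (1 - n / q) = ρ * ρ ^ (-(n / q)) := by
      rw [sub_eq_add_neg, Real.rpow_add hρ, Real.rpow_one]
    rw [h6, h7, cM, h8]
    ring
  rw [h3] at h1
  exact (ENNReal.mul_le_mul_iff_right (by simpa using hVpos) ENNReal.ofReal_ne_top).1 h1

/-- **MORREY** -/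
theorem morrey : MorreyStatement := by
  intro n q hn hq
  have hn' : (1 : ℝ) ≤ n := by exact_mod_cast hn
  have hq1 : 1 < q := by linarith
  have hq0 : 0 < q := by linarith
  have hwpos : 0 < volume.real (ball (0 : E n) 1) :=
    ENNReal.toReal_pos (measure_ball_pos _ _ one_pos).ne' measure_ball_lt_top.ne
  have hcM : 0 < cM n q :=
    mul_pos (mul_pos (by norm_num) (div_pos hq0 (by linarith))) (Real.rpow_pos_of_pos hwpos _)
  refine ⟨cM n q, hcM, ?_⟩
  intro x₀ ρ u v hρ hu hs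
  obtain ⟨hu2, hv2, φ, hφ, hφu, hφv⟩ := hs
  set B := ball x₀ ρ with hB
  set μ := (volume : Measure (E n)).restrict B with hμ
  have hqe : ENNReal.ofReal q ≠ 0 := by simpa using hq0
  have hqt : ENNReal.ofReal q ≠ ⊤ := ENNReal.ofReal_ne_top
  have hqr : (ENNReal.ofReal q).toReal = q := ENNReal.toReal_ofReal hq0.le
  have hmeas : ∀ i, AEStronglyMeasurable (φ i) μ := fun i =>
    (hφ i).continuousOn.aestronglyMeasurable measurableSet_ball
  have hTM : TendstoInMeasure μ φ atTop u :=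
    tendstoInMeasure_of_tendsto_eLpNorm hqe hmeas hu2.1 hφu
  obtain ⟨ns, hns, hae⟩ := hTM.exists_seq_tendsto_ae
  have hae' : ∀ᵐ x : E n, x ∈ B → Tendsto (fun i => φ (ns i) x) atTop (𝓝 (u x)) :=
    (ae_restrict_iff' measurableSet_ball).1 hae
  -- the dense set
  set D : Set (E n) := {x | x ∈ B → Tendsto (fun i => φ (ns i) x) atTop (𝓝 (u x))} with hD
  have hdense : Dense D := Measure.dense_of_ae hae'
  set c : ℝ≥0∞ := ENNReal.ofReal (cM n q * ρ ^ (1 - n / q)) with hc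
  have hcv : ∀ i, (∫⁻ z in B, ‖∇ (φ i) z‖ₑ ^ q) ^ (1 / q) =
      eLpNorm (fun x => ∇ (φ i) x) (ENNReal.ofReal q) μ := by
    intro i
    rw [eLpNorm_eq_lintegral_rpow_enorm_toReal hqe hqt, hqr]
  have hkey : ∀ x ∈ B, x ∈ D → ∀ y ∈ B, y ∈ D → ‖u x - u y‖ₑ ≤
      c * eLpNorm v (ENNReal.ofReal q) μ := by
    intro x hx hxD y hy hyD
    have h1 : Tendsto (fun i => ‖φ (ns i) x - φ (ns i) y‖ₑ) atTop (𝓝 ‖u x - u y‖ₑ) :=
      (continuous_enorm.tendsto _).comp ((hxD hx).sub (hyD hy))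
    have h2 : Tendsto (fun i => c * (eLpNorm (fun x => ∇ (φ (ns i)) x - v x) (ENNReal.ofReal q) μ +
        eLpNorm v (ENNReal.ofReal q) μ)) atTop (𝓝 (c * (0 + eLpNorm v (ENNReal.ofReal q) μ))) := by
      refine ENNReal.Tendsto.const_mul ?_ (Or.inr ENNReal.ofReal_ne_top)
      exact (hφv.comp hns.tendsto_atTop).add tendsto_const_nhds
    rw [zero_add] at h2
    refine le_of_tendsto_of_tendsto' h1 h2 fun i => ?_
    refine (morrey_smooth x₀ ρ q (φ (ns i)) hq hq1 hρ (hφ _) x y hx hy).trans ?_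
    refine mul_le_mul_right ?_ _
    rw [hcv]
    have h3 : (fun x => ∇ (φ (ns i)) x) = fun x => (∇ (φ (ns i)) x - v x) + v x := by
      ext1 x; simp
    rw [h3]
    exact eLpNorm_add_le ((measurable_grad _).aestronglyMeasurable.sub hv2.1) hv2.1
      (by simpa using hq1.le)
  have hfin : c * eLpNorm v (ENNReal.ofReal q) μ =
      ENNReal.ofReal (cM n q * ρ ^ (1 - n / q) * (∫ z in B, ‖v z‖ ^ q) ^ (1 / q)) := by
    rw [hv2.eLpNorm_eq_integral_rpow_norm hqe hqt, hqr, hc, ← ENNReal.ofReal_mul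
      (mul_nonneg hcM.le (Real.rpow_nonneg hρ.le _)), one_div]
  have hkey2 : ∀ x ∈ B ∩ D, ∀ y ∈ B ∩ D, |u x - u y| ≤
      cM n q * ρ ^ (1 - n / q) * (∫ z in B, ‖v z‖ ^ q) ^ (1 / q) := by
    intro x hx y hy
    have h1 := hkey x hx.1 hx.2 y hy.1 hy.2
    rw [hfin, ← ofReal_norm, ENNReal.ofReal_le_ofReal_iff (by positivity)] at h1
    exact h1
  -- density
  have hcl : B ⊆ closure (B ∩ D) := by
    intro x hx
    exact hdense.open_subset_closure_inter isOpen_ball hx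
  have happ : ∀ x ∈ B, ∀ ε : ℝ, 0 < ε → ∃ x' ∈ B ∩ D, |u x' - u x| < ε := by
    intro x hx ε hε
    have h1 : ContinuousAt u x := hu.continuousAt (isOpen_ball.mem_nhds hx)
    have h2 : ∀ᶠ x' in 𝓝 x, |u x' - u x| < ε := by
      have := Metric.continuousAt_iff'.1 h1 ε hε
      simpa [Real.dist_eq] using this
    obtain ⟨x', h3, h4⟩ := (mem_closure_iff_frequently.1 (hcl hx)).and_eventually h2 |>.exists
    exact ⟨x', h3, h4⟩
  intro x hx y hy
  refine le_of_forall_pos_le_add fun ε hε => ?_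
  obtain ⟨x', hx', h1⟩ := happ x hx (ε / 2) (half_pos hε)
  obtain ⟨y', hy', h2⟩ := happ y hy (ε / 2) (half_pos hε)
  have h3 := hkey2 x' hx' y' hy'
  have h4 : |u x - u y| ≤ |u x' - u x| + |u x' - u y'| + |u y' - u y| := by
    have e : u x - u y = -(u x' - u x) + (u x' - u y') + (u y' - u y) := by ring
    rw [e]
    refine (abs_add_le _ _).trans (add_le_add ((abs_add_le _ _).trans ?_) le_rfl)
    rw [abs_neg]
  linarith

end Pool.Agent.Lib.MP_abd978_an.UN.H52
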